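import Pool.Agent.H101Z.Pre.Basic

set_option autoImplicit false

namespace Pool.Agent.Results.MP_c076ed_nt.AManyPreperiodic

open Finset

/-- For every `k` there are a degree `d` with `2 ≤ d ≤ 4 ^ (k + 2)` and a degree-`d` endomorphism of
the projective line over `ℚ` with at least `2 d + k + 2` rational preperiodic points. -/
theorem result : ∀ k : ℕ, ∃ d : ℕ, 2 ≤ d ∧ d ≤ 4 ^ (k + 2) ∧
    ∃ F G : MvPolynomial (Fin 2) ℚ,
      F.IsHomogeneous d ∧ G.IsHomogeneous d ∧
      (∀ x : Fin 2 → AlgebraicClosure ℚ, x ≠ 0 →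
        ¬ (MvPolynomial.aeval x F = 0 ∧ MvPolynomial.aeval x G = 0)) ∧
      ∃ S : Finset (Projectivization ℚ (Fin 2 → ℚ)),
        (∀ P ∈ S, ∃ v : Fin 2 → ℚ, ∃ hv : v ≠ 0,
            Projectivization.mk ℚ v hv = P ∧
            ∃ m n : ℕ, m < n ∧ ∃ c : ℚ, c ≠ 0 ∧
              (fun w : Fin 2 → ℚ => ![MvPolynomial.eval w F, MvPolynomial.eval w G])^[n] v =
                c • (fun w : Fin 2 → ℚ => ![MvPolynomial.eval w F, MvPolynomial.eval w G])^[m] v) ∧
        2 * d + k + 2 ≤ S.card := by
  classical
  intro k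
  obtain ⟨m, hm⟩ : ∃ m, m + 1 = 2 ^ (2 * k + 3) :=
    ⟨2 ^ (2 * k + 3) - 1, Nat.sub_add_cancel Nat.one_le_two_pow⟩
  obtain ⟨f, P, hP, hPk, h2, hdeg, hpole, hval⟩ := Pool.Agent.H101Z.Pre.exists_map k m hm
  have h4 : 4 ^ (k + 2) = 2 * m + 2 := by
    rw [show 4 = 2 ^ 2 by norm_num, ← pow_mul, show 2 * (k + 2) = 2 * k + 3 + 1 by ring, pow_succ]
    omega
  let x : ℕ → ℚ := fun i => (i : ℚ) - m
  let p : ℕ → ℚ := fun l => (l : ℚ) + 1 / 2 - m
  let F : MvPolynomial (Fin 2) ℚ := MvPolynomial.X 1 * f.homogenize (P.card - 1)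
  let G : MvPolynomial (Fin 2) ℚ :=
    ∏ l ∈ P, (MvPolynomial.X 0 - MvPolynomial.C (p l) * MvPolynomial.X 1)
  have hF : F.IsHomogeneous P.card := by
    have := (MvPolynomial.isHomogeneous_X ℚ (1 : Fin 2)).mul
      (Polynomial.isHomogeneous_homogenize (n := P.card - 1) f)
    rwa [show 1 + (P.card - 1) = P.card by omega] at this
  have hG : G.IsHomogeneous P.card := by
    have := MvPolynomial.IsHomogeneous.prod P
      (fun l => (MvPolynomial.X 0 - MvPolynomial.C (p l) * MvPolynomial.X 1 : MvPolynomial (Fin 2) ℚ))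
      (fun _ => 1) fun l _ => (MvPolynomial.isHomogeneous_X ℚ (0 : Fin 2)).sub
        (MvPolynomial.isHomogeneous_C_mul_X _ _)
    simpa using this
  have hxp : ∀ i l, x i ≠ p l := fun i l h => by
    have h2 : ((2 * i : ℕ) : ℚ) = (2 * l + 1 : ℕ) := by
      simp only [x, p] at h
      push_cast
      linarith
    have := Nat.cast_injective h2
    omega
  have hFe : ∀ z : ℚ, MvPolynomial.eval ![z, 1] F = f.eval z := fun z => by
    simp only [F, map_mul, MvPolynomial.eval_X]
    rw [Polynomial.eval_homogenize (by omega) _ (by simp)]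
    simp
  have hGe : ∀ z : ℚ, MvPolynomial.eval ![z, 1] G = ∏ l ∈ P, (z - p l) := fun z => by
    simp [G]
  let A : Finset ℚ := (range (2 * m + 1)).image x ∪ P.image p
  let T : Finset (Fin 2 → ℚ) := insert ![1, 0] (A.image fun z => ![z, 1])
  have hx : ∀ j ≤ 2 * m, ![x j, 1] ∈ T := fun j hj =>
    mem_insert_of_mem (mem_image_of_mem _ (mem_union_left _ (mem_image_of_mem _
      (mem_range.mpr (by omega)))))
  have hT0 : ∀ w ∈ T, w ≠ 0 := fun w hw h => by
    rcases mem_insert.mp hw with rfl | hw
    · simpa using congrFun h 0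
    · obtain ⟨z, -, rfl⟩ := mem_image.mp hw
      simpa using congrFun h 1
  refine ⟨P.card, by omega, by omega, F, G, hF, hG, fun y hy h => ?_,
    T.attach.image fun w => Projectivization.mk ℚ w.1 (hT0 w.1 w.2), fun Q hQ => ?_, ?_⟩
  · obtain ⟨h1, h3⟩ := h
    simp only [G, map_prod, map_sub, map_mul, MvPolynomial.aeval_X, MvPolynomial.aeval_C] at h3
    obtain ⟨l, hl, h3⟩ := prod_eq_zero_iff.mp h3
    have hy1 : y 1 ≠ 0 := fun h5 => hy (by
      rw [h5, mul_zero, sub_zero] at h3
      funext i
      fin_cases i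
      · exact h3
      · exact h5)
    simp only [F, map_mul, MvPolynomial.aeval_X] at h1
    have h6 := (mul_eq_zero.mp h1).resolve_left hy1
    rw [MvPolynomial.aeval_def, ← MvPolynomial.eval_map, ← Polynomial.homogenize_map,
      Polynomial.eval_homogenize (Polynomial.natDegree_map_le.trans (by omega)) _ hy1,
      sub_eq_zero.mp h3, mul_div_cancel_right₀ _ hy1, Polynomial.eval_map_algebraMap,
      Polynomial.aeval_algebraMap_apply, Polynomial.coe_aeval_eq_eval] at h6
    exact mul_ne_zero ((map_ne_zero _).mpr (hpole l hl)) (pow_ne_zero _ hy1) h6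
  · obtain ⟨w, -, rfl⟩ := mem_image.mp hQ
    refine ⟨w.1, _, rfl, Pool.Agent.H101Z.Pre.preperiodic _ P.card (fun c w => ?_) T
      (fun w hw => ?_) w.1 w.2⟩
    · have h5 : ∀ H : MvPolynomial (Fin 2) ℚ, H.IsHomogeneous P.card →
          MvPolynomial.eval (c • w) H = c ^ P.card * MvPolynomial.eval w H := fun H hH => by
        rw [MvPolynomial.eval_eq', MvPolynomial.eval_eq', mul_sum]
        refine sum_congr rfl fun s hs => ?_
        have h6 : s 0 + s 1 = P.card := by
          have := hH (MvPolynomial.mem_support_iff.mp hs)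
          rw [Finsupp.weight_apply, Finsupp.sum_fintype _ _ (by simp)] at this
          simpa using this
        simp only [Fin.prod_univ_two, Pi.smul_apply, smul_eq_mul, mul_pow, ← h6]
        ring
      simp [h5 F hF, h5 G hG]
    · rcases mem_insert.mp hw with rfl | hw
      · refine ⟨_, hx m (by omega), 1, one_ne_zero, ?_⟩
        simp [F, G, x]
      · obtain ⟨z, hz, rfl⟩ := mem_image.mp hw
        rcases mem_union.mp hz with hz | hz
        · obtain ⟨i, hi, rfl⟩ := mem_image.mp hz
          obtain ⟨j, hj, h⟩ := hval i (by have := mem_range.mp hi; omega)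
          refine ⟨_, hx j hj, ∏ l ∈ P, (x i - p l),
            prod_ne_zero_iff.mpr fun l _ => sub_ne_zero.mpr (hxp i l), ?_⟩
          simp only [hFe, hGe]
          rw [h]
          simp [x, p, mul_comm]
        · obtain ⟨l, hl, rfl⟩ := mem_image.mp hz
          refine ⟨_, mem_insert_self _ _, f.eval (p l), hpole l hl, ?_⟩
          simp only [hFe, hGe]
          rw [prod_eq_zero hl (sub_self _)]
          simp
  · have hA : A.card = 2 * m + 1 + P.card := by
      rw [card_union_of_disjoint (disjoint_left.mpr fun z h1 h2 => by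
        obtain ⟨i, -, rfl⟩ := mem_image.mp h1
        obtain ⟨l, -, h⟩ := mem_image.mp h2
        exact hxp i l h.symm), card_image_of_injective, card_image_of_injective, card_range]
      · intro a b h
        simp only [p] at h
        exact Nat.cast_injective (R := ℚ) (by linarith)
      · intro a b h
        simp only [x] at h
        exact Nat.cast_injective (R := ℚ) (by linarith)
    have hT : T.card = A.card + 1 := by
      rw [card_insert_of_notMem, card_image_of_injective _ fun a b h => by
        simpa using congrFun h 0]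
      intro h
      obtain ⟨z, -, h⟩ := mem_image.mp h
      simpa using congrFun h 1
    rw [card_image_of_injective, card_attach]
    · omega
    · intro w w' h
      obtain ⟨a, ha⟩ := (Projectivization.mk_eq_mk_iff' ℚ _ _ _ _).mp h
      apply Subtype.ext
      have h0 := congrFun ha 0
      have h1 := congrFun ha 1
      rw [← ha]
      rcases mem_insert.mp w.2 with h3 | h3 <;> rcases mem_insert.mp w'.2 with h5 | h5
      · rw [h3, h5] at h0
        simp at h0
        simp [h0]
      · obtain ⟨z, -, h5⟩ := mem_image.mp h5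
        rw [h3, ← h5] at h0 h1
        simp at h0 h1
        simp [h1] at h0
      · obtain ⟨z, -, h3⟩ := mem_image.mp h3
        rw [← h3, h5] at h1
        simp at h1
      · obtain ⟨z, -, h3⟩ := mem_image.mp h3
        obtain ⟨z', -, h5⟩ := mem_image.mp h5
        rw [← h3, ← h5] at h1
        simp at h1
        simp [h1]

end Pool.Agent.Results.MP_c076ed_nt.AManyPreperiodic
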